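import Pool.Agent.helper5.SYM.SpecA

/-!
# Project sy (MP_45d809_mp), row F14
-/

set_option autoImplicit false

namespace Pool.Agent.SYM
open Finset CT Polynomial

theorem F14_cut {D : Type} [DecidableEq D] (A : Finset D) (e : D → D) (x p q : D)
    (hA : Act A e) (hx : x ∈ A) (hp : p ∉ A) (hq : q ∉ A) (hpq : p ≠ q) :
    Act (insert p (insert q A)) (cut e x p q) := by
  obtain ⟨hinv, hact⟩ := hA
  have hex : e x ≠ x := (hact x).mpr hx
  have hexA : e x ∈ A := (hact (e x)).mp (by rw [hinv]; exact hex.symm)
  have hep : e p = p := by
    by_contra h
    exact hp ((hact p).mp h)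
  have heq : e q = q := by
    by_contra h
    exact hq ((hact q).mp h)
  have hxp : x ≠ p := fun h => hp (h ▸ hx)
  have hxq : x ≠ q := fun h => hq (h ▸ hx)
  have hexp : e x ≠ p := fun h => hp (h ▸ hexA)
  have hexq : e x ≠ q := fun h => hq (h ▸ hexA)
  have c1 : cut e x p q x = p := by
    unfold cut
    rw [if_pos rfl]
  have c2 : cut e x p q p = x := by
    unfold cut
    rw [if_neg hxp.symm, if_pos rfl]
  have c3 : cut e x p q (e x) = q := by
    unfold cut
    rw [if_neg hex, if_neg hexp, if_pos rfl]
  have c4 : cut e x p q q = e x := by
    unfold cut
    rw [if_neg hxq.symm, if_neg hpq.symm, if_neg hexq.symm, if_pos rfl]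
  have c5 : ∀ d, d ≠ x → d ≠ p → d ≠ e x → d ≠ q → cut e x p q d = e d := by
    intro d h1 h2 h3 h4
    unfold cut
    rw [if_neg h1, if_neg h2, if_neg h3, if_neg h4]
  constructor
  · intro d
    by_cases h1 : d = x
    · rw [h1, c1, c2]
    by_cases h2 : d = p
    · rw [h2, c2, c1]
    by_cases h3 : d = e x
    · rw [h3, c3, c4]
    by_cases h4 : d = q
    · rw [h4, c4, c3]
    rw [c5 d h1 h2 h3 h4]
    have g1 : e d ≠ x := fun h => h3 (by rw [← h, hinv])
    have g2 : e d ≠ p := fun h => h2 (by rw [← hinv d, h, hep])
    have g3 : e d ≠ e x := fun h => h1 (by rw [← hinv d, h, hinv])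
    have g4 : e d ≠ q := fun h => h4 (by rw [← hinv d, h, heq])
    rw [c5 (e d) g1 g2 g3 g4, hinv]
  · intro d
    rw [Finset.mem_insert, Finset.mem_insert]
    by_cases h1 : d = x
    · rw [h1, c1]
      exact ⟨fun _ => Or.inr (Or.inr hx), fun _ => hxp.symm⟩
    by_cases h2 : d = p
    · rw [h2, c2]
      exact ⟨fun _ => Or.inl rfl, fun _ => hxp⟩
    by_cases h3 : d = e x
    · rw [h3, c3]
      exact ⟨fun _ => Or.inr (Or.inr hexA), fun _ => hexq.symm⟩
    by_cases h4 : d = q
    · rw [h4, c4]
      exact ⟨fun _ => Or.inr (Or.inl rfl), fun _ => hexq⟩
    rw [c5 d h1 h2 h3 h4, hact]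
    constructor
    · intro h
      exact Or.inr (Or.inr h)
    · rintro (h | h | h)
      · exact absurd h h2
      · exact absurd h h4
      · exact h

theorem F14 (hFAD : FAD_stmt) (hFON : FON_stmt) (hL6 : L6_stmt) : F14_stmt := by
  intro W _ L E e α p q hnd hEL hE4 hL3 hact hvol hpL hqL hpE hqE hpq
  set A : Finset (W × Fin 4) := dts L.toFinset ∪ E with hAdef
  have hdts : ∀ d : W × Fin 4, d ∈ dts L.toFinset ↔ d.1 ∈ L := by
    intro d
    unfold dts
    rw [Finset.mem_product, List.mem_toFinset]
    exact ⟨fun h => h.1, fun h => ⟨h, Finset.mem_univ _⟩⟩
  have hpA : p ∉ A := by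
    rw [hAdef, Finset.mem_union, hdts]
    rintro (h | h)
    · exact hpL h
    · exact hpE h
  have hqA : q ∉ A := by
    rw [hAdef, Finset.mem_union, hdts]
    rintro (h | h)
    · exact hqL h
    · exact hqE h
  have hep : e p = p := by
    by_contra h
    exact hpA ((hact.2 p).mp h)
  have heq : e q = q := by
    by_contra h
    exact hqA ((hact.2 q).mp h)
  have hz2 : ∀ z : ZMod 2, z = 0 ∨ z = 1 := by decide
  have hneg : ∀ z : ZMod 2, -z = z := by decide
  have hself : ∀ z : ZMod 2, z + z = 0 := by decide
  have key : ∀ m : ℕ, ∀ α : W × Fin 4 → ZMod 2, Vol e α →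
      (A.filter fun d => α d = 1).card = m → F1 L e α = 0 := by
    intro m
    induction m using Nat.strong_induction_on with
    | _ m ih =>
      intro α hvol hm
      by_cases hem : (A.filter fun d => α d = 1) = ∅
      · have hα : α = fun _ => 0 := by
          funext d
          by_cases hd : d ∈ A
          · rcases hz2 (α d) with h | h
            · exact h
            · exfalso
              have h1 : d ∈ (A.filter fun d => α d = 1) := Finset.mem_filter.mpr ⟨hd, h⟩
              rw [hem] at h1
              exact absurd h1 (Finset.notMem_empty d)
          · apply hvol.2 d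
            by_contra h
            exact hd ((hact.2 d).mp h)
        have h1 := hFAD W L e (fun _ => 0) (fun _ => 0)
        simp only [add_zero] at h1
        rw [hα]
        have h2 : F1 L e (fun _ => 0) + F1 L e (fun _ => 0) = 0 := hself _
        rw [← h1] at h2
        exact h2
      · obtain ⟨x, hx⟩ := Finset.nonempty_iff_ne_empty.mpr hem
        rw [Finset.mem_filter] at hx
        obtain ⟨hxA, hx1⟩ := hx
        have hex : e x ≠ x := (hact.2 x).mpr hxA
        set β : W × Fin 4 → ZMod 2 := fun d => if d = x ∨ d = e x then 1 else 0 with hβ
        have hαex : α (e x) = 1 := by rw [hvol.1 x, hneg, hx1]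
        have hβx : β x = 1 := if_pos (Or.inl rfl)
        have hβex : β (e x) = 1 := if_pos (Or.inr rfl)
        have hβ0 : ∀ d, d ≠ x → d ≠ e x → β d = 0 := fun d h1 h2 =>
          if_neg (by rintro (h | h); exacts [h1 h, h2 h])
        have hvβ : Vol e β := by
          constructor
          · intro d
            rw [hneg]
            by_cases h1 : d = x
            · rw [h1, hβx, hβex]
            by_cases h2 : d = e x
            · rw [h2, hact.1, hβx, hβex]
            rw [hβ0 d h1 h2, hβ0 (e d) (fun h => h2 (by rw [← h, hact.1]))
              (fun h => h1 (by rw [← hact.1 d, h, hact.1]))]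
          · intro d hd
            apply hβ0
            · intro h
              rw [h] at hd
              exact hex hd
            · intro h
              rw [h, hact.1] at hd
              exact hex hd.symm
        -- the marked strand
        have hFβ : F1 L e β = 0 := by
          have h1 := hFON W L e x p q hnd hact.1 (fun u hu i => (hact.2 (u, i)).mpr (by
            rw [hAdef, Finset.mem_union, hdts]
            exact Or.inl hu)) hex hep heq hpq hpL hqL
          rw [hβ, h1]
          have hcard : (insert p (insert q E)).card = 6 := by
            rw [Finset.card_insert_of_notMem, Finset.card_insert_of_notMem hqE, hE4]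
            rw [Finset.mem_insert]
            rintro (h | h)
            · exact hpq h
            · exact hpE h
          have hact' : Act (dts L.toFinset ∪ insert p (insert q E)) (cut e x p q) := by
            have h2 := F14_cut A e x p q hact hxA hpA hqA hpq
            have h3 : insert p (insert q A) = dts L.toFinset ∪ insert p (insert q E) := by
              rw [hAdef, Finset.union_insert, Finset.union_insert]
            rw [h3] at h2
            exact h2
          refine hL6 W L (insert p (insert q E)) (cut e x p q) p q hnd ?_ hcard hL3 hact'
            (Finset.mem_insert_self _ _)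
            (Finset.mem_insert_of_mem (Finset.mem_insert_self _ _)) hpq
          intro y hy
          rw [Finset.mem_insert, Finset.mem_insert] at hy
          rcases hy with rfl | rfl | hy
          · exact hpL
          · exact hqL
          · exact hEL y hy
        -- the remaining voltages
        have hvs : Vol e (fun d => α d + β d) := by
          constructor
          · intro d
            show α (e d) + β (e d) = -(α d + β d)
            rw [hvol.1 d, hvβ.1 d]
            ring
          · intro d hd
            show α d + β d = 0
            rw [hvol.2 d hd, hvβ.2 d hd, add_zero]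
        have hlt : (A.filter fun d => α d + β d = 1).card < m := by
          rw [← hm]
          apply Finset.card_lt_card
          rw [Finset.ssubset_iff_of_subset]
          · refine ⟨x, Finset.mem_filter.mpr ⟨hxA, hx1⟩, ?_⟩
            rw [Finset.mem_filter]
            rintro ⟨-, h⟩
            rw [hx1, hβx] at h
            exact absurd h (by decide)
          · intro d hd
            rw [Finset.mem_filter] at hd ⊢
            refine ⟨hd.1, ?_⟩
            have h1 := hd.2
            by_cases g1 : d = x
            · rw [g1]
              exact hx1
            by_cases g2 : d = e x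
            · rw [g2]
              exact hαex
            rw [hβ0 d g1 g2, add_zero] at h1
            exact h1
        have h1 := ih _ hlt (fun d => α d + β d) hvs rfl
        have h2 := hFAD W L e (fun d => α d + β d) β
        have h3 : (fun d => α d + β d + β d) = α := by
          funext d
          rw [add_assoc, hself, add_zero]
        rw [h3, h1, hFβ, add_zero] at h2
        exact h2
  exact key _ α hvol rfl

end Pool.Agent.SYM
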